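import Pool.Agent.H10.IEP.Targets
import Pool.Agent.H7.HD.Asm

/-!
# MP_e37c09_lc: row FI of iep_modules, the assembly
-/

open Ordinal Cardinal Order Set
open scoped ZFSet

universe u

namespace Pool.Agent.H40.IEP

open _root_.HD Pool.Agent.H10.IEP

/-- the first case -/
theorem case_a (hUL : T_UL.{u}) (hCV : T_CV.{u}) {δ : Ordinal.{u}} (hδ0 : 0 < δ)
    (hA : CaseA δ) (l : Ordinal.{u}) : ∃ K : Cardinal.{u}, K.IsRegular ∧ l < K.ord ∧
    ∃ F : ZFSet.{u}, OD F ∧ Fn F ∧ ∀ A, MC ω K.ord A → Vals ω K.ord δ F A = Iio δ := by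
  set o : Ordinal.{u} := max l δ + ω with ho
  set γ : Cardinal.{u} := ℵ_ o with hγ
  have hlim : IsSuccLimit o := isSuccLimit_add _ isSuccLimit_omega0
  have hγ0 : ℵ₀ ≤ γ := aleph0_le_aleph o
  have hord : γ.ord = ω_ o := ord_aleph o
  have hlt : max l δ < γ.ord := by
    rw [hord]
    exact lt_of_lt_of_le (lt_add_of_pos_right _ omega0_pos) (le_omega_self o)
  have hnr : ¬ γ.IsRegular := by
    intro h
    have h1 := h.le_cof_ord
    rw [hord, cof_omega hlim, ho, cof_add _ omega0_ne_zero, cof_omega0] at h1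
    have h2 : ℵ₀ < γ := aleph0_lt_aleph.2 hlim.bot_lt
    exact absurd h1 (not_le.2 h2)
  obtain ⟨-, hon⟩ := hA γ hγ0 hnr (lt_of_le_of_lt (le_max_right _ _) hlt)
  have hreg : (succ γ).IsRegular := isRegular_succ hγ0
  have hsucc : γ.ord < (succ γ).ord := ord_lt_ord.2 (lt_succ γ)
  have hpart : HODPart δ (succ γ).ord :=
    hUL γ hγ0 hon δ hδ0 ((lt_of_le_of_lt (le_max_right _ _) hlt).trans hsucc)
  obtain ⟨F, hF, hFn, hPh⟩ := hCV δ (succ γ) hreg (lt_of_le_of_lt hγ0 (lt_succ γ)) hpart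
  refine ⟨succ γ, hreg, (lt_of_le_of_lt (le_max_left _ _) hlt).trans hsucc, F, hF, hFn, ?_⟩
  intro A hMC
  ext c
  constructor
  · rintro ⟨hc, -⟩
    exact hc
  · intro hc
    exact ⟨hc, hPh c hc A hMC⟩

theorem pf_FI : T_FI.{u} := by
  intro hYL hFP hND hRQ hCV hXB hXA hUL δ hδ
  obtain ⟨η, hη, θ, j, hj⟩ := hXA δ hδ 0
  have hδ0 : 0 < δ := by
    obtain ⟨D, rfl, -, -, h3⟩ := hXB δ η θ j hj
    have h4 : (0 : Cardinal.{u}) < D := aleph0_pos.trans h3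
    have h5 : (0 : Cardinal.{u}).ord < D.ord := Cardinal.ord_lt_ord.2 h4
    rwa [Cardinal.ord_zero] at h5
  by_cases hA : CaseA δ
  · exact Or.inl ⟨hA, fun l => case_a hUL hCV hδ0 hA l⟩
  · refine Or.inr ⟨hA, fun μ hω hμ => ?_⟩
    obtain ⟨D, rfl, hD⟩ := asm_good hXA hXB hYL hδ hA
    obtain ⟨D', h1, h2, h3⟩ := hRQ D hδ (hND D hδ hD) μ hμ
    refine ⟨D'.ord, Cardinal.ord_lt_ord.2 h1, h2, ?_⟩
    intro K hK hDK F hF hFn γ hγ
    exact hFP D' h3 μ K hω h2 hK (Cardinal.ord_lt_ord.1 hDK) F hF hFn γ hγ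

end Pool.Agent.H40.IEP
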